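import Pool.Agent.helper74.XP.SpecP

/-!
# Project xp: (MP_af9036_an): LIN, the linearisation at a repelling periodic point in an elementary form
-/

set_option autoImplicit false

open Complex Metric Set Filter Topology MeasureTheory MPS PPS Pool.Agent.helper16.Multibrot

noncomputable section

namespace XPP

/-- second order estimate at a point. -/
theorem LIN_est (F : ℂ → ℂ) (b : ℂ) (hF : Differentiable ℂ F) :
    ∃ M : ℝ, 0 ≤ M ∧ ∃ R > (0 : ℝ), ∀ m ≤ R, ∀ x x' : ℂ, ‖x - b‖ ≤ m → ‖x' - b‖ ≤ m →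
      ‖F x - F x' - deriv F b * (x - x')‖ ≤ M * m * ‖x - x'‖ := by
  have hC2 : ContDiff ℂ 2 F := hF.contDiff
  have hC1 : ContDiff ℂ 1 (deriv F) := by
    have h := (contDiff_succ_iff_deriv (n := 1) (f := F) (𝕜 := ℂ)).1 (by
      have : ((1 : WithTop ℕ∞) + 1) = 2 := by norm_num
      rw [this]; exact hC2)
    exact h.2.2
  obtain ⟨K, t, ht, hK⟩ := hC1.contDiffAt.exists_lipschitzOnWith (x := b)
  obtain ⟨R, hR, hRt⟩ := Metric.mem_nhds_iff.1 ht
  refine ⟨K, K.2, R / 2, by positivity, ?_⟩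
  intro m hm x x' hx hx'
  have hsub : ∀ z ∈ closedBall b m, ‖deriv (fun z => F z - deriv F b * z) z‖ ≤ K * m := by
    intro z hz
    have hd : HasDerivAt (fun z => F z - deriv F b * z) (deriv F z - deriv F b * 1) z :=
      (hF z).hasDerivAt.sub ((hasDerivAt_id z).const_mul (deriv F b))
    rw [hd.deriv, mul_one]
    have hz1 : z ∈ t := by
      apply hRt
      rw [mem_closedBall] at hz
      rw [mem_ball]
      linarith
    have hb1 : b ∈ t := mem_of_mem_nhds ht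
    have h := hK.dist_le_mul z hz1 b hb1
    rw [dist_eq_norm] at h
    refine h.trans ?_
    rw [mem_closedBall] at hz
    exact mul_le_mul_of_nonneg_left hz K.2
  have hdiff : ∀ z ∈ closedBall b m, DifferentiableAt ℂ (fun z => F z - deriv F b * z) z := by
    intro z _
    exact (hF z).sub ((differentiableAt_id).const_mul (deriv F b))
  have h := (convex_closedBall b m).norm_image_sub_le_of_norm_deriv_le hdiff hsub
    (mem_closedBall_iff_norm.2 hx') (mem_closedBall_iff_norm.2 hx)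
  have he : F x - F x' - deriv F b * (x - x') =
      (F x - deriv F b * x) - (F x' - deriv F b * x') := by ring
  rw [he]
  exact h

/-- local data at a repelling fixed point. -/
structure LIN_D (F H : ℂ → ℂ) (b ρ : ℂ) (M R R₁ : ℝ) : Prop where
  hb : F b = b
  hM : 0 ≤ M
  hρ : 1 < ‖ρ‖
  hMR : M * R ≤ (‖ρ‖ - 1) / 2
  hR₁ : 0 < R₁
  hR₁R : R₁ ≤ R
  hA : ∀ m ≤ R, ∀ x x' : ℂ, ‖x - b‖ ≤ m → ‖x' - b‖ ≤ m →
      ‖F x - F x' - ρ * (x - x')‖ ≤ M * m * ‖x - x'‖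
  hH : ∀ y : ℂ, ‖y - b‖ < R₁ → F (H y) = y ∧ ‖H y - b‖ < R

/-- existence of the local data. -/
theorem LIN_ex (F : ℂ → ℂ) (b : ℂ) (hF : Differentiable ℂ F) (hb : F b = b)
    (hρ : 1 < ‖deriv F b‖) : ∃ (H : ℂ → ℂ) (M R R₁ : ℝ), LIN_D F H b (deriv F b) M R R₁ := by
  obtain ⟨M, hM, R₀, hR₀, hA⟩ := LIN_est F b hF
  obtain ⟨R, hR, hRR, hMR⟩ : ∃ R : ℝ, 0 < R ∧ R ≤ R₀ ∧ M * R ≤ (‖deriv F b‖ - 1) / 2 := by
    have hpos : 0 < (‖deriv F b‖ - 1) / 2 := by linarith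
    refine ⟨min R₀ ((‖deriv F b‖ - 1) / 2 / (M + 1)), lt_min hR₀ (by positivity), min_le_left _ _, ?_⟩
    calc M * min R₀ ((‖deriv F b‖ - 1) / 2 / (M + 1))
        ≤ M * ((‖deriv F b‖ - 1) / 2 / (M + 1)) := mul_le_mul_of_nonneg_left (min_le_right _ _) hM
      _ ≤ (M + 1) * ((‖deriv F b‖ - 1) / 2 / (M + 1)) :=
          mul_le_mul_of_nonneg_right (by linarith) (by positivity)
      _ = (‖deriv F b‖ - 1) / 2 := by field_simp
  have hne : deriv F b ≠ 0 := by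
    intro h
    rw [h, norm_zero] at hρ
    linarith
  have hs : HasStrictDerivAt F (deriv F b) b :=
    (hF.contDiff (n := 1)).contDiffAt.hasStrictDerivAt (by norm_num)
  have hmap := hs.map_nhds_eq hne
  have him : F '' ball b R ∈ 𝓝 b := by
    have h := image_mem_map (m := F) (ball_mem_nhds b hR)
    rw [hmap, hb] at h
    exact h
  obtain ⟨R₁, hR₁, hsub⟩ := Metric.mem_nhds_iff.1 him
  have hch : ∀ y : ℂ, ∃ x : ℂ, ‖y - b‖ < min R₁ R → F x = y ∧ ‖x - b‖ < R := by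
    intro y
    by_cases hy : ‖y - b‖ < min R₁ R
    · obtain ⟨x, hx, hxy⟩ := hsub (mem_ball_iff_norm.2 (lt_of_lt_of_le hy (min_le_left _ _)))
      exact ⟨x, fun _ => ⟨hxy, mem_ball_iff_norm.1 hx⟩⟩
    · exact ⟨0, fun h => absurd h hy⟩
  choose H hH using hch
  exact ⟨H, M, R, min R₁ R, hb, hM, hρ, hMR, lt_min hR₁ hR, min_le_right _ _,
    fun m hm x x' hx hx' => hA m (hm.trans hRR) x x' hx hx', hH⟩

section

variable {F H : ℂ → ℂ} {b ρ : ℂ} {M R R₁ : ℝ}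

/-- lower bound. -/
theorem LIN_lo (D : LIN_D F H b ρ M R R₁) {m : ℝ} (hm : m ≤ R) {x x' : ℂ}
    (hx : ‖x - b‖ ≤ m) (hx' : ‖x' - b‖ ≤ m) : (‖ρ‖ - M * m) * ‖x - x'‖ ≤ ‖F x - F x'‖ := by
  have h := D.hA m hm x x' hx hx'
  have h2 : ‖ρ * (x - x')‖ ≤ ‖F x - F x'‖ + ‖F x - F x' - ρ * (x - x')‖ := by
    have := norm_sub_le (F x - F x') (F x - F x' - ρ * (x - x'))
    rwa [sub_sub_cancel] at this
  rw [norm_mul] at h2
  nlinarith

/-- upper bound. -/
theorem LIN_hi (D : LIN_D F H b ρ M R R₁) {m : ℝ} (hm : m ≤ R) {x : ℂ}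
    (hx : ‖x - b‖ ≤ m) : ‖F x - b‖ ≤ (‖ρ‖ + M * m) * ‖x - b‖ := by
  have h := D.hA m hm x b hx (by rw [sub_self, norm_zero]; exact (norm_nonneg _).trans hx)
  rw [D.hb] at h
  have h2 : ‖F x - b‖ ≤ ‖F x - b - ρ * (x - b)‖ + ‖ρ * (x - b)‖ := by
    have := norm_add_le (F x - b - ρ * (x - b)) (ρ * (x - b))
    rwa [sub_add_cancel] at this
  rw [norm_mul] at h2
  nlinarith

/-- expansion. -/
theorem LIN_exp (D : LIN_D F H b ρ M R R₁) {x x' : ℂ}
    (hx : ‖x - b‖ < R) (hx' : ‖x' - b‖ < R) : (‖ρ‖ + 1) / 2 * ‖x - x'‖ ≤ ‖F x - F x'‖ := by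
  have h := LIN_lo D le_rfl hx.le hx'.le
  have h1 := D.hMR
  nlinarith [norm_nonneg (x - x')]

/-- contraction of the local inverse. -/
theorem LIN_con (D : LIN_D F H b ρ M R R₁) {y y' : ℂ}
    (hy : ‖y - b‖ < R₁) (hy' : ‖y' - b‖ < R₁) :
    ‖H y - H y'‖ ≤ 2 / (‖ρ‖ + 1) * ‖y - y'‖ := by
  have h := LIN_exp D (D.hH y hy).2 (D.hH y' hy').2
  rw [(D.hH y hy).1, (D.hH y' hy').1] at h
  have h1 : (0 : ℝ) < ‖ρ‖ + 1 := by positivity
  have h2 : ‖H y - H y'‖ = 2 / (‖ρ‖ + 1) * ((‖ρ‖ + 1) / 2 * ‖H y - H y'‖) := by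
    field_simp
  rw [h2]
  exact mul_le_mul_of_nonneg_left h (by positivity)

theorem LIN_Hb (D : LIN_D F H b ρ M R R₁) : H b = b := by
  have h0 : ‖b - b‖ < R₁ := by rw [sub_self, norm_zero]; exact D.hR₁
  have h := LIN_exp D (D.hH b h0).2 (x' := b)
    (by rw [sub_self, norm_zero]; exact D.hR₁.trans_le D.hR₁R)
  rw [(D.hH b h0).1, D.hb, sub_self, norm_zero] at h
  have h1 : (0 : ℝ) < (‖ρ‖ + 1) / 2 := by positivity
  have h2 : ‖H b - b‖ ≤ 0 := by
    by_contra hc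
    push Not at hc
    have := mul_pos h1 hc
    linarith
  exact sub_eq_zero.1 (norm_le_zero_iff.1 h2)

theorem LIN_lam (D : LIN_D F H b ρ M R R₁) : 0 < 2 / (‖ρ‖ + 1) ∧ 2 / (‖ρ‖ + 1) < 1 := by
  have h1 := D.hρ
  constructor
  · positivity
  · rw [div_lt_one (by linarith)]
    linarith

theorem LIN_it (D : LIN_D F H b ρ M R R₁) {y : ℂ} (hy : ‖y - b‖ < R₁) (i : ℕ) :
    ‖H^[i] y - b‖ ≤ (2 / (‖ρ‖ + 1)) ^ i * ‖y - b‖ ∧ ‖H^[i] y - b‖ < R₁ := by
  have hl := LIN_lam D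
  induction i with
  | zero => simp [hy]
  | succ i ih =>
    have h0 : ‖b - b‖ < R₁ := by rw [sub_self, norm_zero]; exact D.hR₁
    have h := LIN_con D ih.2 h0
    rw [LIN_Hb D] at h
    rw [Function.iterate_succ_apply']
    constructor
    · refine h.trans ?_
      rw [pow_succ', mul_assoc]
      exact mul_le_mul_of_nonneg_left ih.1 hl.1.le
    · refine lt_of_le_of_lt h ?_
      have := ih.2
      have h3 := mul_le_mul_of_nonneg_right hl.2.le (norm_nonneg (H^[i] y - b))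
      linarith

theorem LIN_FH (D : LIN_D F H b ρ M R R₁) {y : ℂ} (hy : ‖y - b‖ < R₁) (i : ℕ) :
    F^[i] (H^[i] y) = y := by
  induction i with
  | zero => rfl
  | succ i ih =>
    rw [Function.iterate_succ_apply, Function.iterate_succ_apply' H,
      (D.hH _ (LIN_it D hy i).2).1, ih]

/-- distortion. -/
theorem LIN_dis (D : LIN_D F H b ρ M R R₁) {y y' : ℂ}
    (hy : ‖y - b‖ < R₁) (hy' : ‖y' - b‖ < R₁) (i : ℕ) :
    ‖H^[i] y - H^[i] y'‖ * ‖y' - b‖ ≤
      Real.exp (2 * M * R₁ * ∑ j ∈ Finset.range i, (2 / (‖ρ‖ + 1)) ^ j) * ‖y - y'‖ *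
        ‖H^[i] y' - b‖ := by
  have hl := LIN_lam D
  have hM := D.hM
  have hρ := D.hρ
  have hR₁ := D.hR₁
  induction i with
  | zero => simp
  | succ i ih =>
    have ha := LIN_it D hy i
    have ha' := LIN_it D hy' i
    have hx := LIN_it D hy (i + 1)
    have hx' := LIN_it D hy' (i + 1)
    set m := (2 / (‖ρ‖ + 1)) ^ (i + 1) * R₁ with hm
    have hlp : (0 : ℝ) < (2 / (‖ρ‖ + 1)) ^ (i + 1) := pow_pos hl.1 _
    have hlp1 : (2 / (‖ρ‖ + 1)) ^ (i + 1) ≤ 1 := pow_le_one₀ hl.1.le hl.2.le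
    have hxm : ‖H^[i + 1] y - b‖ ≤ m := hx.1.trans (mul_le_mul_of_nonneg_left hy.le hlp.le)
    have hxm' : ‖H^[i + 1] y' - b‖ ≤ m := hx'.1.trans (mul_le_mul_of_nonneg_left hy'.le hlp.le)
    have hmR : m ≤ R := by
      have h1 : m ≤ 1 * R₁ := mul_le_mul_of_nonneg_right hlp1 hR₁.le
      have h2 := D.hR₁R
      linarith
    have hm0 : 0 < m := by positivity
    have h1 := LIN_lo D hmR hxm hxm'
    have h2 := LIN_hi D hmR hxm'
    have e1 : F (H^[i + 1] y) = H^[i] y := by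
      rw [Function.iterate_succ_apply']; exact (D.hH _ ha.2).1
    have e2 : F (H^[i + 1] y') = H^[i] y' := by
      rw [Function.iterate_succ_apply']; exact (D.hH _ ha'.2).1
    rw [e1, e2] at h1
    rw [e2] at h2
    have hMm : M * m ≤ (‖ρ‖ - 1) / 2 := (mul_le_mul_of_nonneg_left hmR hM).trans D.hMR
    have hMm0 : 0 ≤ M * m := mul_nonneg hM hm0.le
    set E := Real.exp (2 * M * R₁ * ∑ j ∈ Finset.range i, (2 / (‖ρ‖ + 1)) ^ j) with hE
    have hE0 : 0 < E := Real.exp_pos _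
    have hden : 0 < ‖ρ‖ - M * m := by linarith
    have hE1 : Real.exp (2 * M * R₁ * ∑ j ∈ Finset.range (i + 1), (2 / (‖ρ‖ + 1)) ^ j) =
        E * Real.exp (2 * M * R₁ * (2 / (‖ρ‖ + 1)) ^ i) := by
      rw [Finset.sum_range_succ, mul_add, Real.exp_add]
    rw [hE1]
    have hstep : 1 + 2 * (M * m) ≤ Real.exp (2 * M * R₁ * (2 / (‖ρ‖ + 1)) ^ i) := by
      have h3 : 2 * (M * m) ≤ 2 * M * R₁ * (2 / (‖ρ‖ + 1)) ^ i := by
        rw [hm, pow_succ]
        have h4 : (2 / (‖ρ‖ + 1)) ^ i * (2 / (‖ρ‖ + 1)) ≤ (2 / (‖ρ‖ + 1)) ^ i * 1 :=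
          mul_le_mul_of_nonneg_left hl.2.le (pow_pos hl.1 _).le
        have h5 : 0 ≤ 2 * M * R₁ := by positivity
        calc 2 * (M * ((2 / (‖ρ‖ + 1)) ^ i * (2 / (‖ρ‖ + 1)) * R₁))
            = 2 * M * R₁ * ((2 / (‖ρ‖ + 1)) ^ i * (2 / (‖ρ‖ + 1))) := by ring
          _ ≤ 2 * M * R₁ * ((2 / (‖ρ‖ + 1)) ^ i * 1) := mul_le_mul_of_nonneg_left h4 h5
          _ = _ := by ring
      have h6 := Real.add_one_le_exp (2 * M * R₁ * (2 / (‖ρ‖ + 1)) ^ i)
      linarith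
    set G := Real.exp (2 * M * R₁ * (2 / (‖ρ‖ + 1)) ^ i) with hG
    have hkey : ‖ρ‖ + M * m ≤ (‖ρ‖ - M * m) * G := by
      have h7 : ‖ρ‖ + M * m ≤ (‖ρ‖ - M * m) * (1 + 2 * (M * m)) := by nlinarith
      exact h7.trans (mul_le_mul_of_nonneg_left hstep hden.le)
    have hc : (‖ρ‖ - M * m) * (‖H^[i + 1] y - H^[i + 1] y'‖ * ‖y' - b‖) ≤
        (‖ρ‖ - M * m) * (E * G * ‖y - y'‖ * ‖H^[i + 1] y' - b‖) := by
      calc (‖ρ‖ - M * m) * (‖H^[i + 1] y - H^[i + 1] y'‖ * ‖y' - b‖)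
          = ((‖ρ‖ - M * m) * ‖H^[i + 1] y - H^[i + 1] y'‖) * ‖y' - b‖ := by ring
        _ ≤ ‖H^[i] y - H^[i] y'‖ * ‖y' - b‖ := mul_le_mul_of_nonneg_right h1 (norm_nonneg _)
        _ ≤ E * ‖y - y'‖ * ‖H^[i] y' - b‖ := ih
        _ ≤ E * ‖y - y'‖ * ((‖ρ‖ + M * m) * ‖H^[i + 1] y' - b‖) :=
            mul_le_mul_of_nonneg_left h2 (by positivity)
        _ ≤ E * ‖y - y'‖ * (((‖ρ‖ - M * m) * G) * ‖H^[i + 1] y' - b‖) :=
            mul_le_mul_of_nonneg_left (mul_le_mul_of_nonneg_right hkey (norm_nonneg _))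
              (by positivity)
        _ = _ := by ring
    exact le_of_mul_le_mul_left hc hden

/-- the exit index. -/
theorem LIN_main (D : LIN_D F H b ρ M R R₁) {d : ℝ} (hd : 0 < d) (hd2 : 2 * d ≤ R₁) {p : ℂ}
    (hp : p ≠ b) (hpd : ‖p - b‖ < d) : ∃ N : ℕ,
      (∀ j < N, ‖F^[j] p - b‖ < d) ∧ (∀ j, 0 < j → j < N → ‖p - b‖ < ‖F^[j] p - b‖) ∧
      H^[N] (F^[N] p) = p ∧
      ∀ y : ℂ, ‖y - F^[N] p‖ < d → F^[N] (H^[N] y) = y ∧
        ‖H^[N] y - p‖ ≤ Real.exp (2 * M * R₁ * (1 - 2 / (‖ρ‖ + 1))⁻¹) * (2 * ‖ρ‖ / d) *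
          ‖p - b‖ * ‖y - F^[N] p‖ := by
  have hl := LIN_lam D
  have hM := D.hM
  have hρ := D.hρ
  have hR₁ := D.hR₁
  have hR₁R := D.hR₁R
  have hρ0 : 0 < ‖ρ‖ := by linarith
  have hpb : 0 < ‖p - b‖ := norm_pos_iff.2 (sub_ne_zero.2 hp)
  have hdρ : d / (2 * ‖ρ‖) < d := by
    rw [div_lt_iff₀ (by positivity)]
    nlinarith
  have hb0 : ‖b - b‖ < R := by rw [sub_self, norm_zero]; exact hR₁.trans_le hR₁R
  have hμ : 1 < (‖ρ‖ + 1) / 2 := by linarith
  -- expansion along the orbit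
  have hgrow : ∀ n : ℕ, (∀ i < n, ‖F^[i] p - b‖ < d / (2 * ‖ρ‖)) →
      ((‖ρ‖ + 1) / 2) ^ n * ‖p - b‖ ≤ ‖F^[n] p - b‖ := by
    intro n
    induction n with
    | zero => intro _; simp
    | succ n ih =>
      intro hi
      have h1 := ih (fun i hin => hi i (by omega))
      have h2 := hi n (by omega)
      have h3 := LIN_exp D (x := F^[n] p) (x' := b) (by linarith) hb0
      rw [D.hb] at h3
      rw [Function.iterate_succ_apply']
      refine le_trans ?_ h3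
      rw [pow_succ', mul_assoc]
      exact mul_le_mul_of_nonneg_left h1 (by positivity)
  have hex : ∃ n : ℕ, d / (2 * ‖ρ‖) ≤ ‖F^[n] p - b‖ := by
    by_contra hc
    push Not at hc
    have ht := tendsto_pow_atTop_atTop_of_one_lt hμ
    obtain ⟨n, hn⟩ := (ht.eventually_gt_atTop (d / ‖p - b‖)).exists
    have h1 := hgrow n (fun i _ => hc i)
    have h2 := hc n
    have h3 : d < ((‖ρ‖ + 1) / 2) ^ n * ‖p - b‖ := by
      rwa [div_lt_iff₀ hpb] at hn
    linarith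
  classical
  let N := Nat.find hex
  have hN : d / (2 * ‖ρ‖) ≤ ‖F^[N] p - b‖ := Nat.find_spec hex
  have hlt : ∀ j < N, ‖F^[j] p - b‖ < d / (2 * ‖ρ‖) := by
    intro j hj
    have := Nat.find_min hex hj
    push Not at this
    exact this
  have hle : ∀ j ≤ N, ‖F^[j] p - b‖ < d := by
    intro j hj
    rcases Nat.eq_zero_or_pos j with h0 | h0
    · rw [h0]; exact hpd
    · obtain ⟨i, rfl⟩ : ∃ i, j = i + 1 := ⟨j - 1, by omega⟩
      have h1 := hlt i (by omega)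
      have h2 := LIN_hi D le_rfl (x := F^[i] p) (by linarith)
      rw [← Function.iterate_succ_apply' F] at h2
      have h3 := D.hMR
      have h4 : ‖F^[i + 1] p - b‖ ≤ 2 * ‖ρ‖ * ‖F^[i] p - b‖ := by
        refine h2.trans (mul_le_mul_of_nonneg_right ?_ (norm_nonneg _))
        linarith
      have h5 : ‖F^[i] p - b‖ * (2 * ‖ρ‖) < d := by
        rwa [lt_div_iff₀ (by positivity)] at h1
      linarith
  have hback : ∀ i ≤ N, H^[i] (F^[N] p) = F^[N - i] p := by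
    intro i
    induction i with
    | zero => intro _; simp
    | succ i ih =>
      intro hi
      have h1 := ih (by omega)
      rw [Function.iterate_succ_apply', h1]
      have hNi : N - i = (N - (i + 1)) + 1 := by omega
      have h2 : ‖F^[N - i] p - b‖ < R₁ := by
        have := hle (N - i) (by omega)
        linarith
      have h3 : ‖F^[N - (i + 1)] p - b‖ < R := by
        have := hle (N - (i + 1)) (by omega)
        linarith
      have h5 : F (F^[N - (i + 1)] p) = F^[N - i] p := by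
        rw [hNi, Function.iterate_succ_apply']
      have h4 := LIN_exp D (D.hH _ h2).2 h3
      rw [(D.hH _ h2).1, h5, sub_self, norm_zero] at h4
      have h6 : ‖H (F^[N - i] p) - F^[N - (i + 1)] p‖ ≤ 0 := by
        by_contra hc
        push Not at hc
        have := mul_pos (by linarith : (0 : ℝ) < (‖ρ‖ + 1) / 2) hc
        linarith
      exact sub_eq_zero.1 (norm_le_zero_iff.1 h6)
  have hHN : H^[N] (F^[N] p) = p := by
    have := hback N le_rfl
    rwa [Nat.sub_self, Function.iterate_zero_apply] at this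
  refine ⟨N, fun j hj => (hlt j hj).trans hdρ, ?_, hHN, ?_⟩
  · intro j hj0 hjN
    have h1 := hgrow j (fun i hi => hlt i (hi.trans hjN))
    have h2 : 1 < ((‖ρ‖ + 1) / 2) ^ j := one_lt_pow₀ hμ (by omega)
    have h3 : 1 * ‖p - b‖ < ((‖ρ‖ + 1) / 2) ^ j * ‖p - b‖ := mul_lt_mul_of_pos_right h2 hpb
    linarith
  · intro y hy
    have hyb : ‖y - b‖ < R₁ := by
      have h1 : ‖y - b‖ ≤ ‖y - F^[N] p‖ + ‖F^[N] p - b‖ := norm_sub_le_norm_sub_add_norm_sub _ _ _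
      have h2 := hle N le_rfl
      linarith
    have hqb : ‖F^[N] p - b‖ < R₁ := by
      have h2 := hle N le_rfl
      linarith
    refine ⟨LIN_FH D hyb N, ?_⟩
    have h := LIN_dis D hyb hqb N
    rw [hHN] at h
    have hsum : ∑ j ∈ Finset.range N, (2 / (‖ρ‖ + 1)) ^ j ≤ (1 - 2 / (‖ρ‖ + 1))⁻¹ := by
      rw [← tsum_geometric_of_lt_one hl.1.le hl.2]
      exact (summable_geometric_of_lt_one hl.1.le hl.2).sum_le_tsum _
        (fun j _ => pow_nonneg hl.1.le j)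
    have hexp : Real.exp (2 * M * R₁ * ∑ j ∈ Finset.range N, (2 / (‖ρ‖ + 1)) ^ j) ≤
        Real.exp (2 * M * R₁ * (1 - 2 / (‖ρ‖ + 1))⁻¹) :=
      Real.exp_le_exp.2 (mul_le_mul_of_nonneg_left hsum (by positivity))
    set E := Real.exp (2 * M * R₁ * (1 - 2 / (‖ρ‖ + 1))⁻¹) with hE
    have hE0 : 0 < E := Real.exp_pos _
    have h7 : ‖H^[N] y - p‖ * (d / (2 * ‖ρ‖)) ≤ E * ‖y - F^[N] p‖ * ‖p - b‖ := by
      calc ‖H^[N] y - p‖ * (d / (2 * ‖ρ‖)) ≤ ‖H^[N] y - p‖ * ‖F^[N] p - b‖ :=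
            mul_le_mul_of_nonneg_left hN (norm_nonneg _)
        _ ≤ _ := h
        _ ≤ E * ‖y - F^[N] p‖ * ‖p - b‖ :=
            mul_le_mul_of_nonneg_right (mul_le_mul_of_nonneg_right hexp (norm_nonneg _))
              (norm_nonneg _)
    have h8 : ‖H^[N] y - p‖ = (‖H^[N] y - p‖ * (d / (2 * ‖ρ‖))) * (2 * ‖ρ‖ / d) := by
      field_simp
    rw [h8]
    calc (‖H^[N] y - p‖ * (d / (2 * ‖ρ‖))) * (2 * ‖ρ‖ / d)
        ≤ (E * ‖y - F^[N] p‖ * ‖p - b‖) * (2 * ‖ρ‖ / d) :=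
          mul_le_mul_of_nonneg_right h7 (by positivity)
      _ = _ := by ring

end

theorem LIN : LIN_stmt := by
  intro f k' b' _ hrep
  obtain ⟨⟨hk, hper⟩, hρ⟩ := hrep
  have hfd : Differentiable ℂ (fun w : ℂ => f.eval w) := f.differentiable
  have hitd : ∀ m, Differentiable ℂ (it f m) := fun m => hfd.iterate m
  have hFb : it f k' b' = b' := by
    have h := Function.isPeriodicPt_minimalPeriod (fun w : ℂ => f.eval w) b'
    rw [hper] at h
    exact h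
  obtain ⟨H, M, R, R₁, D⟩ := LIN_ex (it f k') b' (hitd k') hFb hρ
  -- separation from the other points of the cycle
  obtain ⟨d₁, hd₁, hsep⟩ : ∃ d₁ > (0 : ℝ), ∀ s, 0 < s → s < k' → ∀ x x' : ℂ, ‖x - b'‖ < d₁ →
      ‖x' - b'‖ < d₁ → it f s x ≠ x' := by
    have h1 : ∀ s ∈ Finset.range k', ∀ᶠ q : ℂ × ℂ in 𝓝 (b', b'), 0 < s → it f s q.1 ≠ q.2 := by
      intro s hs
      rcases Nat.eq_zero_or_pos s with h0 | h0
      · exact Eventually.of_forall (fun q h => absurd h (by omega))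
      · have hne : it f s b' ≠ b' := by
          intro h
          have h2 : Function.minimalPeriod (fun w : ℂ => f.eval w) b' ≤ s :=
            Function.IsPeriodicPt.minimalPeriod_le h0 h
          rw [hper] at h2
          have := Finset.mem_range.1 hs
          omega
        have hop : IsOpen {q : ℂ × ℂ | it f s q.1 ≠ q.2} :=
          isOpen_ne_fun ((hitd s).continuous.comp continuous_fst) continuous_snd
        have hm : ((b', b') : ℂ × ℂ) ∈ {q : ℂ × ℂ | it f s q.1 ≠ q.2} := hne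
        filter_upwards [hop.mem_nhds hm] with q hq _ using hq
    have h2 : ∀ᶠ q : ℂ × ℂ in 𝓝 (b', b'), ∀ s ∈ Finset.range k', 0 < s → it f s q.1 ≠ q.2 :=
      (Finset.eventually_all _).2 h1
    obtain ⟨d₁, hd₁, hsub⟩ := Metric.eventually_nhds_iff_ball.1 h2
    refine ⟨d₁, hd₁, fun s hs0 hsk x x' hx hx' => ?_⟩
    have hmem : ((x, x') : ℂ × ℂ) ∈ ball ((b', b') : ℂ × ℂ) d₁ := by
      rw [← ball_prod_same]
      exact ⟨mem_ball_iff_norm.2 hx, mem_ball_iff_norm.2 hx'⟩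
    exact hsub _ hmem s (Finset.mem_range.2 hsk) hs0
  set d := min d₁ (R₁ / 2) with hd
  have hd0 : 0 < d := lt_min hd₁ (by have := D.hR₁; linarith)
  have hd2 : 2 * d ≤ R₁ := by
    have := min_le_right d₁ (R₁ / 2)
    linarith
  have hdd : d ≤ d₁ := min_le_left _ _
  have hρ0 : 0 < ‖deriv (it f k') b'‖ := lt_trans one_pos hρ
  refine ⟨d, hd0, d, hd0, Real.exp (2 * M * R₁ * (1 - 2 / (‖deriv (it f k') b'‖ + 1))⁻¹) *
    (2 * ‖deriv (it f k') b'‖ / d), by positivity, ?_⟩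
  intro p hp hpd
  obtain ⟨N, hN1, hN2, hN3, hN4⟩ := LIN_main D hd0 hd2 hp hpd
  have hit : ∀ j : ℕ, it f (j * k') = (it f k')^[j] := by
    intro j
    rw [mul_comm]
    exact Function.iterate_mul _ k' j
  refine ⟨N, H^[N], ?_, ?_, ?_⟩
  · rw [hit N]; exact hN3
  · intro y hy
    rw [hit N] at hy ⊢
    exact hN4 y hy
  · intro K hK hKp
    by_contra hc
    push Not at hc
    have hdm : k' * (K / k') + K % k' = K := Nat.div_add_mod K k'
    have hs : K % k' < k' := Nat.mod_lt _ hk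
    have hj : K / k' < N := by
      rw [Nat.div_lt_iff_lt_mul hk]
      exact hc
    have hsplit : it f K p = it f (K % k') ((it f k')^[K / k'] p) := by
      rw [← hit]
      conv_lhs => rw [← hdm, add_comm, mul_comm k']
      exact Function.iterate_add_apply _ _ _ _
    have hq := hN1 _ hj
    rcases Nat.eq_zero_or_pos (K % k') with h0 | h0
    · rw [h0] at hsplit hdm
      have h1 : (it f k')^[K / k'] p = p := by
        rw [hsplit] at hKp
        exact hKp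
      have hpos : 0 < K / k' := by
        rcases Nat.eq_zero_or_pos (K / k') with h2 | h2
        · rw [h2] at hdm
          omega
        · exact h2
      have h3 := hN2 _ hpos hj
      rw [h1] at h3
      exact lt_irrefl _ h3
    · rw [hsplit] at hKp
      exact hsep _ h0 hs _ _ (hq.trans_le hdd) (hpd.trans_le hdd) hKp

end XPP
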